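import Pool.Agent.H47.AchB

open Finset Filter Topology MeasureTheory Pool.Agent.H47.Ach

namespace Pool.Agent.Results.MP_160bbb_an.Big

/-- the sum range -/
def SR (y : ℕ → ℝ × ℝ) : Set (ℝ × ℝ) :=
  {z | ∃ σ : Equiv.Perm ℕ, Tendsto (fun n => ∑ i ∈ range n, y (σ i)) atTop (𝓝 z)}

/-- the achievement set -/
def Ach (y : ℕ → ℝ × ℝ) : Set (ℝ × ℝ) :=
  {z | ∃ S : Set ℕ, Tendsto (fun n => ∑ i ∈ range n, S.indicator y i) atTop (𝓝 z)}

theorem η1 (k : ℕ) : η k ≤ 1 := by simpa [η] using ηa (Nat.zero_le k)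

theorem rigid : ∃ u : ℝ, (u, -1) ∉ Ach x := by
  have nn : ∀ k, 0 ≤ q k * δ k ∧ 0 ≤ N k * g (k + 1) := fun k =>
    ⟨mul_nonneg (by positivity) (δp k).le, mul_nonneg (by positivity) (gp _).le⟩
  have sm : Summable fun k => q k * δ k + N k * g (k + 1) :=
    summable_of_sum_range_le (c := 1) (fun k => add_nonneg (nn k).1 (nn k).2) fun K => by
      have := congrArg Prod.fst (full K)
      rw [Prod.fst_sum] at this
      refine (sum_le_sum fun k _ => ?_).trans (this.trans_le (by linarith [gp K]))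
      simp [vl]; linarith [(nn k).1]
  refine ⟨∑' k, (q k * δ k + N k * g (k + 1)), fun ⟨S, hS⟩ => ?_⟩
  obtain ⟨j, m, b, hj, hm, hb, h⟩ : ∃ j m b : ℕ → ℕ, (∀ k, j k ≤ N k) ∧ (∀ k, m k ≤ N k) ∧
      (∀ k, b k ≤ 2 * q k) ∧ Tendsto (fun K => ∑ k ∈ range K, vl k (j k) (m k) (b k)) atTop (𝓝 _) :=
    ⟨_, _, _, fun k => cn_le S k (ρ := 0) (by omega) _ _, fun k => cn_le S k (ρ := 1) (by omega) _ _,
      fun k => cn_le S k (ρ := 2) (by omega) _ _,
      by simpa only [Function.comp_def, sumT, blk S _ _ le_rfl] using hS.comp Tm.tendsto_atTop⟩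
  have h1 := (h.fst_nhds.sub sm.hasSum.tendsto_sum_nat).abs
  have h2 := h.snd_nhds
  simp only [Prod.fst_sum, Prod.snd_sum, vl, ← sum_sub_distrib, sub_self, abs_zero] at h1 h2
  obtain ⟨r, r0, rs⟩ : ∃ r : ℕ → ℤ, r 0 = 0 ∧ ∀ k, r (k + 1) =
      (r k * (2 * q k + 1) + (j k - m k + b k - q k)) * (N k + 1) + (j k - N k) :=
    ⟨Nat.rec 0 fun k r =>
      (r * (2 * q k + 1) + (j k - m k + b k - q k)) * (N k + 1) + (j k - N k), rfl, fun _ => rfl⟩
  have st : ∀ k : ℕ, (r (k + 1) : ℝ) * g (k + 1) =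
      (r k : ℝ) * g k + (((j k : ℝ) - m k + b k - q k) * δ k + (j k - N k) * g (k + 1)) := fun k => by
    rw [rs, gδ k, δg k]; push_cast; ring
  have e : ∀ K, ∑ k ∈ range K, ((j k - m k + b k) * δ k + j k * g (k + 1) -
      (q k * δ k + N k * g (k + 1))) = r K * g K := fun K => by
    induction K with
    | zero => simp [r0]
    | succ K ih => rw [sum_range_succ, ih, st]; ring
  simp only [e] at h1
  have ex : ∃ K, ∀ k ≥ K, |(j k : ℝ) - m k| ≤ s k := by
    have := (((tendsto_add_atTop_iff_nat 1).2 h2).sub h2).abs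
    simp only [sum_range_succ, add_sub_cancel_left, sub_self, abs_zero] at this
    refine eventually_atTop.1 (((this.eventually (gt_mem_nhds one_pos)).and
      (eventually_ge_atTop 1)).mono fun k ⟨u, v⟩ => le_of_mul_le_mul_right ?_ (ηp k))
    have : (1 : ℝ) ≤ a k := by exact_mod_cast v.trans (a_ge k)
    rw [abs_mul, abs_of_pos (ηp k)] at u
    rw [sη]; linarith
  have ze : ∀ K, (∀ k ≥ K, |(j k : ℝ) - m k| ≤ s k) → r K = 0 := fun K hK => by
    by_contra g0
    have : ∀ k ≥ K, g K / 7 + 6 / 7 * g k ≤ |r k * g k| := fun k u => by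
      induction u with
      | refl =>
        have : (1 : ℝ) ≤ |(r K : ℝ)| := by exact_mod_cast Int.one_le_abs g0
        rw [abs_mul, abs_of_pos (gp K)]; nlinarith [gp K]
      | @step k u ih =>
        obtain ⟨c1, c2⟩ := abs_le.1 (hK k u)
        have c3 : (2 * (s k + 1) : ℝ) ≤ q k := by exact_mod_cast sq2 k
        have c4 : (b k : ℝ) ≤ 2 * q k := by exact_mod_cast hb k
        have c5 : (j k : ℝ) ≤ N k := by exact_mod_cast hj k
        have := gδ k; have := δg k; have := δp k; have := gp (k + 1); have := g8 k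
        have : |(j k - m k + b k - q k) * δ k + (j k - N k) * g (k + 1)| ≤ 3 / 4 * g k :=
          abs_le.2 ⟨by nlinarith [(b k).cast_nonneg (α := ℝ), (j k).cast_nonneg (α := ℝ)],
            by nlinarith⟩
        have p := abs_sub (r (k + 1) * g (k + 1))
          ((j k - m k + b k - q k) * δ k + (j k - N k) * g (k + 1))
        rw [st k, add_sub_cancel_right, ← st k] at p
        show _ ≤ |r (k + 1) * g (k + 1)|
        linarith
    have := ge_of_tendsto h1 (eventually_atTop.2 ⟨K, fun k u =>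
      (le_add_of_nonneg_right (mul_nonneg (by norm_num) (gp k).le)).trans (this k u)⟩)
    linarith [gp K]
  have po : ∀ k, r (k + 1) = 0 → (0 : ℝ) ≤ j k - m k := fun k u => by
    rw [rs] at u
    have c5 : (j k : ℤ) ≤ N k := by exact_mod_cast hj k
    have c6 : (m k : ℤ) ≤ N k := by exact_mod_cast hm k
    generalize r k * (2 * q k + 1) + (j k - m k + b k - q k) = A at u
    have : (0 : ℤ) ≤ j k - m k := by
      rcases lt_trichotomy A 0 with w | rfl | w <;> nlinarith [(j k).cast_nonneg (α := ℤ)]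
    exact_mod_cast this
  have lb : ∀ K, -(a K : ℝ) ≤ ∑ k ∈ range K, (j k - m k) * η k := fun K => by
    induction K with
    | zero => simp
    | succ K ih =>
      have c6 : (m K : ℝ) ≤ N K := by exact_mod_cast hm K
      rw [sum_range_succ, a_succ]; push_cast
      nlinarith [ηp K, η1 K, (j K).cast_nonneg (α := ℝ), (m K).cast_nonneg (α := ℝ)]
  classical
  have sp := Nat.find_spec ex
  have : ∀ K ≥ Nat.find ex, 0 ≤ ∑ k ∈ range K, ((j k : ℝ) - m k) * η k := fun K u => by
    induction u with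
    | refl =>
      rcases w : Nat.find ex with _ | K
      · simp
      have := Nat.find_min ex (m := K) (by omega)
      rw [w] at sp
      have p := po K (ze _ sp)
      have : ¬ |(j K : ℝ) - m K| ≤ s K := fun c => this fun k v =>
        v.eq_or_lt.elim (fun o => o ▸ c) (sp k)
      rw [abs_of_nonneg p] at this
      rw [sum_range_succ]; nlinarith [lb K, sη K, ηp K]
    | @step K u ih =>
      rw [sum_range_succ]
      exact add_nonneg ih (mul_nonneg (po K (ze _ fun k v => sp k (Nat.le_trans u (Nat.le_of_succ_le v))))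
        (ηp K).le)
  linarith [ge_of_tendsto h2 (eventually_atTop.2 ⟨_, this⟩)]

theorem dig (v : ℝ) (R : ℕ) : ∃ d : ℕ, d ≤ R ∧ Int.fract v * (R + 1) = d + Int.fract (v * (R + 1)) ∧
    ∀ (c : ℕ) (ρ : ℝ), c + 1 ≤ ρ * (R + 1) → ρ < Int.fract v → ρ < 1 - Int.fract v →
      c ≤ d ∧ d + c ≤ R := by
  have p : (0 : ℝ) < R + 1 := by positivity
  have n := mul_nonneg (Int.fract_nonneg v) p.le
  have a := Nat.floor_le n
  have b := Nat.lt_floor_add_one (Int.fract v * (R + 1))
  have l := Int.fract_lt_one v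
  refine ⟨⌊Int.fract v * (R + 1)⌋₊, Nat.le_of_lt_succ ((Nat.floor_lt n).2 (by push_cast; nlinarith)),
    ?_, fun c ρ u w z => ⟨Nat.le_floor (by nlinarith), ?_⟩⟩
  · rw [show v * (R + 1) = (⌊v⌋ * (R + 1) : ℤ) + Int.fract v * (R + 1) by
      rw [Int.fract]; push_cast; ring, Int.fract_intCast_add, natCast_floor_eq_intCast_floor n,
      Int.floor_add_fract]
  · exact_mod_cast (show (⌊Int.fract v * (R + 1)⌋₊ : ℝ) + c ≤ R by nlinarith)

def Bad (A : ℕ) (ρ : ℝ) : Set ℝ := ⋃ z ∈ range (A + 1), Metric.closedBall (z / A) (ρ / A)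

theorem nBad {A : ℕ} {ρ u : ℝ} (hA : (0 : ℝ) < A) (u0 : 0 ≤ u) (u1 : u < 1) (h : u ∉ Bad A ρ) :
    ρ < Int.fract (u * A) ∧ ρ < 1 - Int.fract (u * A) := by
  have n : 0 ≤ u * A := by positivity
  have l : ⌊u * A⌋₊ < A := (Nat.floor_lt n).2 (by nlinarith)
  have e : ∀ z ≤ A, ρ < |u * A - z| := fun z w => lt_of_not_ge fun c => h (Set.mem_biUnion
    (mem_range.2 (Nat.lt_succ_of_le w)) (by
      rw [Metric.mem_closedBall, Real.dist_eq, le_div_iff₀ hA, ← abs_of_pos hA, ← abs_mul,
        abs_of_pos hA, sub_mul, div_mul_cancel₀ _ hA.ne']; exact c))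
  have a := e _ l.le
  have b := e _ l
  push_cast at b
  rw [natCast_floor_eq_intCast_floor n] at a b
  rw [← sub_sub, ← Int.fract, abs_of_neg (sub_neg.2 (Int.fract_lt_one _))] at b
  rw [← Int.fract, abs_of_nonneg (Int.fract_nonneg _)] at a
  exact ⟨a, by linarith⟩

theorem vBad {A : ℕ} {ρ : ℝ} (hA : (0 : ℝ) < A) (h : 0 ≤ ρ) : volume (Bad A ρ) ≤ .ofReal (4 * ρ) := by
  refine (measure_biUnion_finset_le _ _).trans ?_
  simp only [Real.volume_closedBall, sum_const, card_range, nsmul_eq_mul]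
  rw [← ENNReal.ofReal_natCast, ← ENNReal.ofReal_mul (by positivity)]
  have : (1 : ℝ) ≤ A := by exact_mod_cast (by exact_mod_cast hA : 0 < A)
  refine ENNReal.ofReal_le_ofReal ?_
  push_cast
  rw [← mul_div_assoc, ← mul_div_assoc, div_le_iff₀ hA]; nlinarith

def B (k : ℕ) : Set ℝ := Bad (G k) (η k) ∪ Bad (D k) (η k)

theorem gen {u : ℝ} (u0 : 0 ≤ u) (u1 : u < 1) (h : ∃ᶠ k in atTop, u ∉ B k) (y : ℝ) :
    (u, y) ∈ Ach x := by
  classical
  choose β β1 β2 β3 using fun k => dig (u * G k) (2 * q k)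
  choose j j1 j2 j3 using fun k => dig (u * D k) (N k)
  have go : ∀ k, u ∉ B k → (s k ≤ β k ∧ β k + s k ≤ 2 * q k) ∧ s k ≤ j k ∧ j k + s k ≤ N k := by
    intro k w
    obtain ⟨a1, a2⟩ := nBad (Gp k) u0 u1 fun c => w (.inl c)
    obtain ⟨a3, a4⟩ := nBad (Dp k) u0 u1 fun c => w (.inr c)
    have : ∀ R : ℕ, (k + 1) * (s k + 1) ≤ R + 1 → (s k : ℝ) + 1 ≤ η k * (R + 1) := fun R c => by
      rw [η, one_div, le_inv_mul_iff₀ (by positivity)]; exact_mod_cast c
    have f := fct k; have f2 := sq2 k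
    exact ⟨β3 k _ _ (this _ (by unfold q; nlinarith [Nat.zero_le (k * (s k + 1))])) a1 a2,
      j3 k _ _ (this _ ((Nat.mul_le_mul_left _ (by omega)).trans (N k).le_succ)) a3 a4⟩
  let p : ℕ → Prop := fun k => u ∉ B k ∧ |y| + 2 ≤ k
  let w : ℕ → ℝ := Nat.rec y fun k r => if p k then η k * Int.fract (r / η k) else r
  let c : ℕ → ℤ := fun k => if p k then ⌊w k / η k⌋ else 0
  have ws : ∀ k, w (k + 1) = if p k then η k * Int.fract (w k / η k) else w k := fun _ => rfl
  have wc : ∀ k, w (k + 1) = w k - c k * η k := fun k => by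
    have := ηp k
    simp only [ws, c]; split_ifs
    · rw [Int.fract]; field_simp
    · simp
  have w1 : ∀ k, p k → |w (k + 1)| ≤ η k := fun k v => by
    rw [ws, if_pos v, abs_of_nonneg (mul_nonneg (ηp k).le (Int.fract_nonneg _))]
    exact mul_le_of_le_one_right (ηp k).le (Int.fract_lt_one _).le
  have w2 : ∀ {k C}, |w k| ≤ C → η k ≤ C → ∀ i ≥ k, |w i| ≤ C := fun {k C} a b i v => by
    induction v with
    | refl => exact a
    | @step i v ih =>
      by_cases o : p i
      · exact (w1 i o).trans ((ηa v).trans b)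
      · rwa [Nat.succ_eq_add_one, ws, if_neg o]
  have w3 : Tendsto w atTop (𝓝 0) := Metric.tendsto_atTop.2 fun ε v => by
    obtain ⟨k, a, b⟩ := ((h.and_eventually (tendsto_natCast_atTop_atTop.eventually_ge_atTop
      (|y| + 2))).and_eventually (η0.eventually (gt_mem_nhds v))).exists
    exact ⟨k + 1, fun i o => by
      simpa using (w2 (w1 k a) (ηa k.le_succ) i o).trans_lt b⟩
  have cs : ∀ k, (c k ≤ β k ∧ β k - c k ≤ 2 * q k) ∧ (c k ≤ j k ∧ j k - c k ≤ N k) ∧
      c k ≤ 2 * q k ∧ -c k ≤ 2 * q k := fun k => by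
    have := β1 k; have := j1 k
    by_cases o : p k
    · have := go k o.1
      have a := w2 (k := 0) (C := |y| + 1) (by simp [w]) (by linarith [η1 0, abs_nonneg y]) k k.zero_le
      have b := w1 k o
      have : (k : ℝ) ≤ H47.Ach.a k := by exact_mod_cast a_ge k
      have : |c k * η k| ≤ s k * η k := by
        rw [sη, show c k * η k = w k - w (k + 1) by rw [wc]; ring]
        linarith [abs_sub (w k) (w (k + 1)), η1 k, o.2]
      rw [abs_mul, abs_of_pos (ηp k)] at this
      have : |c k| ≤ s k := by exact_mod_cast le_of_mul_le_mul_right this (ηp k)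
      have := abs_le.1 this
      omega
    · simp only [c, if_neg o]; omega
  have e1 : ∀ k, ((j k - c k).toNat : ℝ) = j k - c k := fun k => by
    exact_mod_cast Int.toNat_of_nonneg (by have := cs k; omega)
  have e2 : ∀ k, ((β k - c k).toNat : ℝ) = β k - c k := fun k => by
    exact_mod_cast Int.toNat_of_nonneg (by have := cs k; omega)
  refine ⟨_, build (j := j) (m := fun k => (j k - c k).toNat) (b := fun k => (β k - c k).toNat) j1
    (fun k => by have := cs k; omega) (fun k => by have := cs k; omega)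
    (fun k => by have := cs k; omega) ?_ ?_⟩
  · simpa [e1, wc] using w3.sub ((tendsto_add_atTop_iff_nat 1).2 w3)
  have : ∀ K, ∑ k ∈ range K, vl k (j k) (j k - c k).toNat (β k - c k).toNat =
      (u - Int.fract (u * G K) * g K, y - w K) := fun K => by
    induction K with
    | zero => simp [G, par, g, w, Int.fract_eq_self.2 ⟨u0, u1⟩, Prod.ext_iff]
    | succ K ih =>
      have a := β2 K; have b := j2 K
      rw [mul_assoc u] at a b
      rw [sum_range_succ, ih, vl, e1, e2, wc, G_succ, gδ K, δg K]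
      simp only [D] at *
      push_cast at *
      refine Prod.ext ?_ (by simp; ring)
      simp only [Prod.fst_add]
      linear_combination (-(N K + 1) * g (K + 1)) * a - g (K + 1) * b
  simp only [this]
  refine Tendsto.prodMk_nhds ?_ (by simpa using w3.const_sub y)
  simpa using (squeeze_zero (f := fun K => Int.fract (u * G K) * g K)
    (fun K => mul_nonneg (Int.fract_nonneg _) (gp K).le)
    (fun K => mul_le_of_le_one_left (gp K).le (Int.fract_lt_one _).le) g0).const_sub u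

theorem result : ∃ y : ℕ → ℝ × ℝ, (∃ z, Tendsto (fun n => ∑ i ∈ range n, y i) atTop (𝓝 z)) ∧
    ¬ Summable (fun n => ‖y n‖) ∧ SR y = Set.univ ∧ Ach y ≠ Set.univ ∧
    volume (Ach y) ≠ 0 ∧ ¬ IsMeagre (Ach y) := by
  let C : ℕ → Set (ℝ × ℝ) := fun M => (⋂ k ≥ M, B k) ×ˢ Set.univ
  have c1 : ∀ M, IsClosed (C M) := fun M => (isClosed_biInter fun k _ => IsClosed.union
    (isClosed_biUnion_finset fun _ _ => Metric.isClosed_closedBall)
    (isClosed_biUnion_finset fun _ _ => Metric.isClosed_closedBall)).prod isClosed_univ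
  have c2 : ∀ M, volume (C M) = 0 := fun M => by
    have t := ENNReal.tendsto_ofReal (η0.const_mul 4)
    have : volume (⋂ k ≥ M, B k) = 0 := le_zero_iff.1 (ge_of_tendsto
      (by simpa using t.add t) (eventually_atTop.2 ⟨M, fun k v => (measure_mono
        (Set.biInter_subset_of_mem v)).trans ((measure_union_le _ _).trans
        (add_le_add (vBad (Gp k) (ηp k).le) (vBad (Dp k) (ηp k).le)))⟩))
    rw [Measure.volume_eq_prod, Measure.prod_prod, this, zero_mul]
  have o : IsOpen (Set.Ioo (0 : ℝ) 1 ×ˢ (Set.univ : Set ℝ)) := isOpen_Ioo.prod isOpen_univ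
  have ne : (Set.Ioo (0 : ℝ) 1 ×ˢ (Set.univ : Set ℝ)).Nonempty := ⟨(1 / 2, 0), by norm_num⟩
  have sub : Set.Ioo (0 : ℝ) 1 ×ˢ (Set.univ : Set ℝ) ⊆ Ach x ∪ ⋃ M, C M := fun z hz => by
    by_cases h : ∃ᶠ k in atTop, z.1 ∉ B k
    · exact .inl (gen hz.1.1.le hz.1.2 h z.2)
    · obtain ⟨M, hM⟩ := eventually_atTop.1 (not_frequently.1 h)
      exact .inr (Set.mem_iUnion.2 ⟨M, Set.mem_iInter₂.2 fun k v => not_not.1 (hM k v), trivial⟩)
  refine ⟨x, ⟨_, orig⟩, fun h => ?_, Set.eq_univ_of_forall sr, fun h => ?_, fun h => ?_, fun h => ?_⟩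
  · have : ∀ z, z = ∑' n, x n := fun z => by
      obtain ⟨σ, hσ⟩ := sr z
      exact tendsto_nhds_unique hσ (σ.hasSum_iff.2 h.of_norm.hasSum).tendsto_sum_nat
    exact zero_ne_one ((this 0).trans (this 1).symm)
  · obtain ⟨u, hu⟩ := rigid
    exact hu (h ▸ trivial)
  · exact o.measure_ne_zero volume ne
      (measure_mono_null sub (measure_union_null h (measure_iUnion_null c2)))
  · exact not_isMeagre_of_isOpen o ne ((h.union (isMeagre_iUnion fun M => IsNowhereDense.isMeagre
      ((c1 M).isNowhereDense_iff.2 (Measure.interior_eq_empty_of_null (c2 M))))).mono sub)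

end Pool.Agent.Results.MP_160bbb_an.Big
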